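import Pool.Agent.H55.QR.Targets

/-! # Quantum relaxations of 3-SAT: the list of the 3-CNFs of the index vectors (row PCORE3) -/

set_option autoImplicit false

namespace Pool.Agent.H33.QR

open Matrix Finset H43.PS Pool.Agent.H55.QR
open Pool.Agent.H1.LP (Clause viol Loc Sys supp ip kk)
open Pool.Agent.H96.KX (PDz S_FRM3)

theorem pf_PCORE3 (hLO : Pool.Agent.H1.LP.S_LOC) (hFR : S_FRM3) (hD : S_DPR) : S_PCORE3 := by
  classical
  intro B R t q n ε T Ys hR ht hq hBn hRB hT hA01 hfar r δ₀ s hPSB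
  have hfact : Fact (Nat.Prime 2) := ⟨Nat.prime_two⟩
  obtain ⟨S, hS⟩ := hLO 2 B R t (t / 3) Ys (by omega)
  have hsupp : ∀ i, supp (Ys.A i) ⊆ T i := by
    intro i j hj
    by_contra hne
    have h1 : Ys.A i j ≠ 0 := (mem_filter.1 hj).2
    rw [hA01, if_neg hne] at h1
    exact h1 rfl
  have hrow : ∀ i, Ys.A i ∈ S.La ∧ S.ga (Ys.A i) = Ys.be i := by
    intro i
    apply hS
    calc (supp (Ys.A i)).card ≤ (T i).card := card_le_card (hsupp i)
      _ = 3 := hT i
      _ ≤ _ := by omega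
  obtain ⟨asg, dec, C, fC, cl, inF, eq, F, phi, hda, hcC, hF, hcl, hphi, hsum, hviol, hlast⟩ :=
    hFR B R q n T Ys.A Ys.be hq hT hA01 hBn
  obtain ⟨Yc, hYc⟩ : ∃ Yc, Fintype.card (Fin B → Fin q) = Yc := ⟨_, rfl⟩
  have hYc' : Yc = q ^ B := by
    rw [← hYc, Fintype.card_fun, Fintype.card_fin, Fintype.card_fin]
  let e : Fin Yc ≃ (Fin B → Fin q) := (Fintype.equivFinOfCardEq hYc).symm
  have hY0 : 0 < Yc := by
    rw [hYc']
    exact Nat.pow_pos (by omega)
  refine ⟨Yc, fun _ => 4 * R, fun a => phi (e a), hY0, ?_, ?_⟩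
  · intro a
    refine ⟨?_, le_rfl, ?_, ?_⟩
    · show 1 ≤ 4 * R
      omega
    · intro c
      obtain ⟨c', hc'⟩ := hphi (e a) c
      show (phi (e a) c).card = 3 ∧ ((phi (e a) c).image Prod.fst).card = 3
      rw [hc']
      exact hcl c'
    · intro y
      rw [hviol (e a) y]
      refine le_trans (le_of_eq ?_) (hfar _)
      push_cast
      ring
  -- the inequality
  intro ι _ _ L Sm A de hιr hde hδde hL hSm htr
  have hDP := hD 2 B (t / 3) (t / 3 / 2) S (by omega)
  obtain ⟨hD1, hD2, hD3, hD4⟩ := hDP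
  have hRpos : (0 : ℝ) < R := by
    have : 0 < R := by omega
    exact_mod_cast this
  have key := hPSB ι (A.map e.toEmbedding) (fun b => L (e.symm b)) (fun t => Sm (asg t)) (PDz S)
    (fun z => ((univ.filter (fun i => ip (Ys.A i) z ≠ Ys.be i)).card : ℝ)) R de
    (by
      intro b hb
      obtain ⟨a, ha, rfl⟩ := mem_map.1 hb
      show (L (e.symm (e a))).PosSemidef
      rw [e.symm_apply_apply]
      exact hL a ha)
    (fun t => hSm (asg t)) hD1 hD2 hD3 (hD4 R Ys.A Ys.be hrow)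
    (fun z => Nat.cast_nonneg _)
    (fun z => by
      have h1 : (univ.filter (fun i => ip (Ys.A i) z ≠ Ys.be i)).card ≤ R :=
        (Finset.card_le_univ _).trans (by rw [Fintype.card_fin])
      exact_mod_cast h1)
    hRpos (by exact_mod_cast hRB) hde hδde hιr
    (by
      intro b hb t
      obtain ⟨a, ha, rfl⟩ := mem_map.1 hb
      have h1 := htr a ha (asg t)
      rw [hviol (e a) (asg t), hda] at h1
      show _ = (L (e.symm (e a)) * Sm (asg t)).trace
      rw [e.symm_apply_apply]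
      exact h1.symm)
  rw [card_map] at key
  have hqpos : (0 : ℝ) < (q : ℝ) ^ B := by
    have : 0 < q := by omega
    positivity
  rw [div_le_iff₀ hqpos] at key
  have hYR : (Yc : ℝ) = (q : ℝ) ^ B := by
    rw [hYc']
    push_cast
    rfl
  rw [hYR]
  exact key

end Pool.Agent.H33.QR
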